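import Pool.Agent.H7.GldDefs
import Pool.Agent.H7.IncPd
import Pool.Agent.H7.OrbPd
import Pool.Agent.H7.Grp56

/-!
# Incidence algebra of subgroup classes versus coefficient systems

For the group `G = V ⋊ ZMod 7` of order `56`, with `V` elementary abelian of order `8`, the rational
incidence algebra of `Sub_G/G` has global dimension at most `2`, while the category of rational
coefficient systems for `G` has global dimension at least `3`.
-/

set_option autoImplicit false

open CategoryTheory Pool.Agent.H7 Pool.Agent.H7.Gld Pool.Agent.H7.Grp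

namespace Pool.Agent.Results.MP_b87388_al.GldimDiffer

/-- Positions of the two maximal elements below a class, and of their meet. -/
def tU : Fin 6 → Fin 6 := ![0, 0, 1, 2, 0, 3]
/-- see `tU` -/
def tV : Fin 6 → Fin 6 := ![0, 0, 1, 2, 0, 4]
/-- see `tU` -/
def tW : Fin 6 → Fin 6 := ![0, 0, 1, 2, 0, 0]

theorem good (x : SubClass Aff) : Inc.Good x := by
  obtain ⟨j, rfl⟩ := exists_std x
  by_cases hj : j = 0
  · left
    subst hj
    intro y hy
    obtain ⟨i, rfl⟩ := exists_std y
    rw [cls_std_le] at hy ⊢
    revert i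
    decide
  · right
    refine ⟨cls (std (tU j)), cls (std (tV j)), cls (std (tW j)), ?_, ?_⟩
    · intro y
      obtain ⟨i, rfl⟩ := exists_std y
      rw [lt_iff_le_not_ge, cls_std_le, cls_std_le, cls_std_le, cls_std_le]
      revert i j
      decide
    · intro y
      obtain ⟨i, rfl⟩ := exists_std y
      rw [cls_std_le, cls_std_le, cls_std_le]
      revert i j
      decide

theorem gldim_incidence : gldim (ModuleCat.{0} (IncidenceAlgebra ℚ (SubClass Aff))) ≤ 2 := by
  refine iSup_le (fun X => ?_)
  have h : HasProjectiveDimensionLT (ModuleCat.of (IncidenceAlgebra ℚ (SubClass Aff)) X) 3 :=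
    Inc.pd_lt_three good _ X Finset.univ rfl (fun y hy => absurd (Finset.mem_univ y) hy)
  exact (projectiveDimension_le_iff X 2).2 h

theorem gldim_coefficient : 3 ≤ gldim ((OrbitCat Aff)ᵒᵖ ⥤ ModuleCat.{0} ℚ) := by
  obtain ⟨F, hF⟩ := Orb.not_pd s2 pt (by
    intro y
    obtain ⟨i, hi⟩ := li_move y
    exact ⟨i, tr (li i), Subgroup.mem_inf.2 ⟨(li_fix i).1, (li_fix i).2⟩, hi⟩)
  exact ((projectiveDimension_ge_iff F 3).2 hF).trans (le_iSup (fun X => projectiveDimension X) F)

/-- There is a finite group `G` (of order `56`) for which the rational incidence algebra of the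
poset of conjugacy classes of subgroups has global dimension at most `2`, whereas the category of
rational coefficient systems has global dimension at least `3`. -/
theorem result : ∃ (G : Type) (_ : Group G) (_ : Finite G), Nat.card G = 56 ∧
    gldim (ModuleCat.{0} (IncidenceAlgebra ℚ (SubClass G))) ≤ 2 ∧
    3 ≤ gldim ((OrbitCat G)ᵒᵖ ⥤ ModuleCat.{0} ℚ) := by
  refine ⟨Aff, inferInstance, inferInstance, ?_, gldim_incidence, gldim_coefficient⟩
  have := card_top'
  rwa [Subgroup.card_top] at this

/-- In particular the two global dimensions differ. -/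
theorem exists_ne : ∃ (G : Type) (_ : Group G) (_ : Finite G),
    gldim (ModuleCat.{0} (IncidenceAlgebra ℚ (SubClass G))) ≠
      gldim ((OrbitCat G)ᵒᵖ ⥤ ModuleCat.{0} ℚ) := by
  obtain ⟨G, h1, h2, _, h3, h4⟩ := result
  refine ⟨G, h1, h2, fun h => ?_⟩
  rw [h] at h3
  have : (3 : WithBot ℕ∞) ≤ 2 := h4.trans h3
  exact absurd this (by decide)

end Pool.Agent.Results.MP_b87388_al.GldimDiffer
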